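import Pool.Agent.Helper61.NW.Goals2

/-!
# Project FP: free products
-/

set_option autoImplicit false

namespace Pool.Agent.Helper74.FP

open Pool.Agent.Helper52.Wq2 Pool.Agent.Helper61.NW Monoid

universe u

/-- The union of the generating sets. -/
def US {ι : Type} {A : ι → Type u} [∀ i, Group (A i)] (S : ∀ i, Set (A i)) : Set (CoprodI A) :=
  {x | ∃ i, ∃ s ∈ S i, x = CoprodI.of s}

/-- The left Cayley graph. -/
def cayL {Γ : Type u} [Group Γ] (S : Set Γ) : SimpleGraph Γ :=
  SimpleGraph.fromRel (fun a b : Γ => b * a⁻¹ ∈ S)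

/-- **F1.** Inversion: `cay S ≃g cayL S` (for symmetric `S`). -/
def F1Stmt : Prop := ∀ (Γ : Type u) [Group Γ] (S : Set Γ), IsGen S →
  ∃ e : cay S ≃g cayL S, ∀ x, e x = x⁻¹

/-- **F2.** The union is an admissible generating set of the free product. -/
def F2Stmt : Prop := ∀ (ι : Type) (A : ι → Type u) [∀ i, Group (A i)] (S : ∀ i, Set (A i)),
  (∀ i, IsGen (S i)) → IsGen (US S)

/-- **F3.** Normalized models: right multiplication is an automorphism of `cayL T`. -/
def F3Stmt : Prop := ∀ (A B : Type u) [Group A] [Group B] (S : Set A) (T : Set B),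
  Mn (cayL S) (cayL T) → ∃ V : A → Set B, Model (cayL S) (cayL T) V ∧ (1 : B) ∈ V 1

/-- **F4.** The core, for left Cayley graphs.

Proof. `r i a ∈ V i a` with `r i 1 = 1`, so `r i a ≠ 1` for `a ≠ 1` (the `V i a` are disjoint). For a reduced
word `w = a₁ a₂ … aₙ` of `A` (`CoprodI.Word A`, first letter `a₁ ∈ A i₁`; `w = cons a₁ w'`) let
`f w = r(a₁) … r(aₙ)`, a reduced word of `B` with the same indices. Branch set of `w`: `{f w}`, all
`b · f w'` with `b ∈ V i₁ a₁`, and all `b · f w` with `b ∈ V i 1`, `i ≠ i₁`. Connected: every part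
contains `f w` and is the image of `V i a` under a map `b ↦ b · y`, which preserves adjacency. Disjoint: let
`x` be in the branch set of `w`; if `x = nil`, `w = nil`; otherwise `x = cons b x'`, `x' = f w''` for a unique
`w''` (`f` is injective), `b ∈ V i a` for a unique `a`, and `w = w''` if `a = 1`, `w = cons a w''` otherwise.
Edges: `w`, `s w`, `s ∈ S i`: if `i = i₁` both are of the form `a w'`, `s a₁ w'`, and `V i a₁` is
adjacent to `V i (s a₁)` (if `s a₁ = 1` then `V i 1 · f w'` is in the branch set of `w'`); if `i ≠ i₁`,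
`V i 1 · f w` and `V i s · f w` are adjacent. -/
def F4Stmt : Prop := ∀ (ι : Type) (A B : ι → Type u) [∀ i, Group (A i)] [∀ i, Group (B i)]
  (S : ∀ i, Set (A i)) (T : ∀ i, Set (B i)) (V : ∀ i, A i → Set (B i)),
  (∀ i, IsGen (S i)) → (∀ i, IsGen (T i)) →
  (∀ i, Model (cayL (S i)) (cayL (T i)) (V i)) → (∀ i, (1 : B i) ∈ V i 1) →
  Mn (cayL (US S)) (cayL (US T))

/-- **F5.** Free factors: `cay` of the free product of a subfamily is a subgraph. Proof. The map
`CoprodI (fun i => B (f i)) → CoprodI B` is injective (it has a left inverse, as `f` is injective). -/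
def F5Stmt : Prop := ∀ (ι κ : Type) (f : ι → κ) (B : κ → Type u) [∀ k, Group (B k)]
  (T : ∀ k, Set (B k)), Function.Injective f →
  Mn (cay (US (A := fun i => B (f i)) fun i => T (f i))) (cay (US T))

/-- Sequences of Cayley graphs in the class `P` are good. -/
def Wqo (P : ∀ (Γ : Type u) [Group Γ], Set Γ → Prop) : Prop :=
  ∀ (Γ : ℕ → Type u) [∀ i, Group (Γ i)] (S : ∀ i, Set (Γ i)), (∀ i, IsGen (S i)) →
    (∀ i, P (Γ i) (S i)) → ∃ i j, i < j ∧ Mn (cay (S i)) (cay (S j))

/-- **F6.** Higman's lemma (Mathlib: `Set.PartiallyWellOrderedOn.partiallyWellOrderedOn_sublistForall₂`), on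
lists of bundled pairs (group, generating set) with the relation `Mn (cay S) (cay T)` (reflexive and
transitive). -/
def F6Stmt : Prop := ∀ (P : ∀ (Γ : Type u) [Group Γ], Set Γ → Prop), Wqo.{u} P →
  ∀ (k : ℕ → ℕ) (A : ∀ i, Fin (k i) → Type u) [∀ i l, Group (A i l)]
    (S : ∀ i l, Set (A i l)), (∀ i l, IsGen (S i l)) → (∀ i l, P (A i l) (S i l)) →
    ∃ i j, i < j ∧ ∃ f : Fin (k i) → Fin (k j), Function.Injective f ∧
      ∀ l, Mn (cay (S i l)) (cay (S j (f l)))

/-- **F7.** The theorem. (May assume all others; `Mn` is transitive, see Wq2.) -/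
def F7Stmt : Prop := ∀ (P : ∀ (Γ : Type u) [Group Γ], Set Γ → Prop), Wqo.{u} P →
  ∀ (k : ℕ → ℕ) (A : ∀ i, Fin (k i) → Type u) [∀ i l, Group (A i l)]
    (S : ∀ i l, Set (A i l)), (∀ i l, IsGen (S i l)) → (∀ i l, P (A i l) (S i l)) →
    ∃ i j, i < j ∧ Mn (cay (US (S i))) (cay (US (S j)))

end Pool.Agent.Helper74.FP
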