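import Pool.Agent.Helper74.FP.Goals

set_option autoImplicit false

namespace Pool.Agent.Helper74.FP

open Pool.Agent.Helper52.Wq2 Pool.Agent.Helper61.NW Monoid

universe u

theorem lift_inj {ι κ : Type} (f : ι → κ) (B : κ → Type u) [∀ k, Group (B k)]
    (hf : Function.Injective f) :
    Function.Injective (CoprodI.lift (M := fun i => B (f i))
      (fun i => (CoprodI.of : B (f i) →* CoprodI B))) := by
  classical
  -- the left inverse
  let o : ∀ i, B (f i) →* CoprodI (fun i => B (f i)) := fun i =>
    CoprodI.of (M := fun i => B (f i)) (i := i)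
  let g : ∀ k : κ, B k →* CoprodI (fun i => B (f i)) := fun k =>
    if h : ∃ i, f i = k then h.choose_spec ▸ o h.choose else 1
  have hg : ∀ i, g (f i) = o i := by
    intro i
    have h : ∃ i', f i' = f i := ⟨i, rfl⟩
    have : g (f i) = h.choose_spec ▸ o h.choose := dif_pos h
    rw [this]
    have h2 : ∀ (i' : ι) (e : f i' = f i), (e ▸ o i' : B (f i) →* CoprodI (fun i => B (f i))) =
        o i := by
      intro i' e
      have : i' = i := hf e
      subst this
      rfl
    exact h2 _ _
  have hl : (CoprodI.lift g).comp (CoprodI.lift (M := fun i => B (f i))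
      (fun i => (CoprodI.of : B (f i) →* CoprodI B))) = MonoidHom.id _ := by
    apply CoprodI.ext_hom
    intro i
    ext x
    simp [hg, o]
  intro x y hxy
  have := congrArg (CoprodI.lift g) hxy
  have h1 := DFunLike.congr_fun hl x
  have h2 := DFunLike.congr_fun hl y
  simp only [MonoidHom.comp_apply, MonoidHom.id_apply] at h1 h2
  rw [← h1, ← h2, this]

/-- **F5.** -/
theorem f5 : F5Stmt.{u} := by
  intro ι κ f B _ T hf
  have hinj := lift_inj f B hf
  refine Mn.of_inj (CoprodI.lift (M := fun i => B (f i))
      (fun i => (CoprodI.of : B (f i) →* CoprodI B))) hinj ?_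
  intro x y hxy
  rw [cay, SimpleGraph.fromRel_adj] at hxy ⊢
  refine ⟨fun h => hxy.1 (hinj h), ?_⟩
  have key : ∀ z : CoprodI (fun i => B (f i)), z ∈ US (A := fun i => B (f i)) (fun i => T (f i)) →
      CoprodI.lift (M := fun i => B (f i)) (fun i => (CoprodI.of : B (f i) →* CoprodI B)) z ∈
        US T := by
    rintro z ⟨i, s, hs, rfl⟩
    exact ⟨f i, s, hs, by rw [CoprodI.lift_of]⟩
  rcases hxy.2 with h | h
  · left; have := key _ h; rwa [map_mul, map_inv] at this
  · right; have := key _ h; rwa [map_mul, map_inv] at this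

end Pool.Agent.Helper74.FP
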