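import Pool.Agent.Helper74.FP.Fin
import Pool.Agent.Helper74.FP.F5
import Pool.Agent.Helper59.FP.F1
import Pool.Agent.Helper41.FP.F2
import Pool.Agent.Helper50.FP.F3
import Pool.Agent.Helper80.FP.F4
import Pool.Agent.Helper36.FP.F6

set_option autoImplicit false

namespace Pool.Agent.Helper74.FP

universe u v

open Pool.Agent.Helper52.Wq2 Pool.Agent.Helper61.NW Monoid

/-- **F7.** Finite free products of a well-quasi-ordered class of Cayley graphs. -/
theorem f7 : F7Stmt.{u} :=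
  f7_of Pool.Agent.Helper59.FP.f1 Pool.Agent.Helper41.FP.f2 Pool.Agent.Helper50.FP.f3
    Pool.Agent.Helper80.FP.f4 f5 Pool.Agent.Helper36.FP.f6

/-- The final form, with factors of bounded order added. -/
theorem fp (P : ∀ (Γ : Type u) [Group Γ], Set Γ → Prop) (hP : Wqo.{u} P)
    (N : ℕ) (V : ℕ → Type v) (G : ∀ i, SimpleGraph (V i))
    (hG : ∀ i, InFP.{u, v} (fun Γ _ S => P Γ S ∨ (Finite Γ ∧ Nat.card Γ ≤ N)) (G i)) :
    ∃ i j, i < j ∧ Mn (G i) (G j) :=
  fp_bdd f7 P hP N V G hG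

end Pool.Agent.Helper74.FP
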