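import Pool.Agent.Helper74.FP.Goals2

set_option autoImplicit false

namespace Pool.Agent.Helper74.FP

open Pool.Agent.Helper52.Wq2 Pool.Agent.Helper61.NW Monoid

universe u

/-- From left to right Cayley graphs. -/
theorem mn_cay_of_cayL (h1 : F1Stmt.{u}) {Γ Δ : Type u} [Group Γ] [Group Δ] {S : Set Γ}
    {T : Set Δ} (hS : IsGen S) (hT : IsGen T) (h : Mn (cayL S) (cayL T)) :
    Mn (cay S) (cay T) := by
  obtain ⟨e, -⟩ := h1 Γ S hS
  obtain ⟨f, -⟩ := h1 Δ T hT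
  exact ((Mn.of_iso e).trans h).trans (Mn.of_iso f.symm)

theorem mn_cayL_of_cay (h1 : F1Stmt.{u}) {Γ Δ : Type u} [Group Γ] [Group Δ] {S : Set Γ}
    {T : Set Δ} (hS : IsGen S) (hT : IsGen T) (h : Mn (cay S) (cay T)) :
    Mn (cayL S) (cayL T) := by
  obtain ⟨e, -⟩ := h1 Γ S hS
  obtain ⟨f, -⟩ := h1 Δ T hT
  exact ((Mn.of_iso e.symm).trans h).trans (Mn.of_iso f)

/-- **F7** from F1 to F6. -/
theorem f7_of (h1 : F1Stmt.{u}) (h2 : F2Stmt.{u}) (h3 : F3Stmt.{u}) (h4 : F4Stmt.{u})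
    (h5 : F5Stmt.{u}) (h6 : F6Stmt.{u}) : F7Stmt.{u} := by
  intro P hP k A _ S hS hPS
  obtain ⟨i, j, hij, f, hf, hM⟩ := h6 P hP k A S hS hPS
  refine ⟨i, j, hij, ?_⟩
  have hL : ∀ l, Mn (cayL (S i l)) (cayL (S j (f l))) := fun l =>
    mn_cayL_of_cay h1 (hS i l) (hS j (f l)) (hM l)
  choose V hV hV1 using fun l => h3 _ _ _ _ (hL l)
  have hT : ∀ l, IsGen (S j (f l)) := fun l => hS j (f l)
  have h7 : Mn (cayL (US (S i)))
      (cayL (US (A := fun l => A j (f l)) fun l => S j (f l))) :=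
    h4 (Fin (k i)) (A i) (fun l => A j (f l)) (S i) (fun l => S j (f l)) V (hS i) hT hV hV1
  have h8 := mn_cay_of_cayL h1 (h2 _ _ _ (hS i)) (h2 _ _ _ hT) h7
  exact h8.trans (h5 (Fin (k i)) (Fin (k j)) f (A j) (S j) hf)

end Pool.Agent.Helper74.FP
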