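import Pool.Agent.Helper74.FP.F7
import Pool.Agent.Helper37.FP.F9
import Pool.Agent.Helper82.FP.F8

set_option autoImplicit false

namespace Pool.Agent.Helper74.FP

open Pool.Agent.Helper52.Wq2 Pool.Agent.Helper61.NW Monoid

universe u v

/-- `G` is isomorphic to the Cayley graph of a finite free product of groups with property `P`, with the
union of the generating sets. -/
def InFP (P : ∀ (Γ : Type u) [Group Γ], Set Γ → Prop) {V : Type v} (G : SimpleGraph V) : Prop :=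
  ∃ (k : ℕ) (A : Fin k → Type u) (_ : ∀ l, Group (A l)) (S : ∀ l, Set (A l)),
    (∀ l, IsGen (S l)) ∧ (∀ l, P (A l) (S l)) ∧ Nonempty (G ≃g cay (US S))

/-- The theorem up to isomorphism. -/
theorem fp_iso (h7 : F7Stmt.{u}) (P : ∀ (Γ : Type u) [Group Γ], Set Γ → Prop) (hP : Wqo.{u} P)
    (V : ℕ → Type v) (G : ∀ i, SimpleGraph (V i)) (hG : ∀ i, InFP.{u, v} P (G i)) :
    ∃ i j, i < j ∧ Mn (G i) (G j) := by
  choose k A inst S h1 h2 h3 using hG
  obtain ⟨i, j, hij, hm⟩ := h7 P hP k A S h1 h2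
  obtain ⟨e⟩ := h3 i
  obtain ⟨f⟩ := h3 j
  exact ⟨i, j, hij, ((Mn.of_iso e).trans hm).trans (Mn.of_iso f.symm)⟩

/-- With finite factors of bounded order added. -/
theorem fp_bdd (h7 : F7Stmt.{u}) (P : ∀ (Γ : Type u) [Group Γ], Set Γ → Prop) (hP : Wqo.{u} P)
    (N : ℕ) (V : ℕ → Type v) (G : ∀ i, SimpleGraph (V i))
    (hG : ∀ i, InFP.{u, v} (fun Γ _ S => P Γ S ∨ (Finite Γ ∧ Nat.card Γ ≤ N)) (G i)) :
    ∃ i j, i < j ∧ Mn (G i) (G j) :=
  fp_iso h7 _ (Pool.Agent.Helper37.FP.f9 _ _ hP (Pool.Agent.Helper82.FP.f8 N)) V G hG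

end Pool.Agent.Helper74.FP
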