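import Pool.Agent.Helper74.FP.Goals

/-!
# Project FP: finite factors
-/

set_option autoImplicit false

namespace Pool.Agent.Helper74.FP

open Pool.Agent.Helper52.Wq2 Pool.Agent.Helper61.NW Monoid

universe u

/-- **F8.** Groups with at most `N` elements: finitely many graphs on `Fin n`, `n ≤ N`, up to isomorphism
(pigeonhole). -/
def F8Stmt : Prop := ∀ N : ℕ, Wqo.{u} (fun Γ _ _ => Finite Γ ∧ Nat.card Γ ≤ N)

/-- **F9.** Union of two classes: one of them contains infinitely many terms of the sequence. -/
def F9Stmt : Prop := ∀ P Q : ∀ (Γ : Type u) [Group Γ], Set Γ → Prop, Wqo.{u} P → Wqo.{u} Q →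
  Wqo.{u} (fun Γ _ S => P Γ S ∨ Q Γ S)

/-- **F10.** Free products with one factor (or: a group isomorphic to it): `cay S` is isomorphic to `cay` of the free
product of the family with one member. -/
def F10Stmt : Prop := ∀ (A : Fin 1 → Type u) [∀ l, Group (A l)] (S : ∀ l, Set (A l)),
  Nonempty (cay (S 0) ≃g cay (US S))

end Pool.Agent.Helper74.FP
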